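import Pool.Agent.Lib.MP_8fffab_lc_scm_h93.OneDimC

/-!
# One-dimensional inequality: regime I (module O of the SCM project)
-/

set_option autoImplicit false

open Finset

namespace SetCoverMono

theorem norm_pow_sub_one_le_mul {z : ℂ} (hz : ‖z‖ = 1) (k : ℕ) : ‖z ^ k - 1‖ ≤ k * ‖z - 1‖ := by
  induction k with
  | zero => simp
  | succ k ih =>
    have h1 : z ^ (k + 1) - 1 = z ^ k * (z - 1) + (z ^ k - 1) := by ring
    rw [h1]
    refine le_trans (norm_add_le _ _) ?_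
    rw [norm_mul, norm_pow, hz, one_pow, one_mul]
    push_cast
    linarith

/-- a geometric sum of powers of a number close to `1` is large -/
theorem half_le_norm_geom {z : ℂ} (hz : ‖z‖ = 1) {m : ℕ} (hm : 0 < m)
    (h : ‖z - 1‖ ≤ 1 / m) : (m : ℝ) / 2 ≤ ‖∑ k ∈ range m, z ^ k‖ := by
  have hm' : (0 : ℝ) < m := by exact_mod_cast hm
  have h1 : ‖∑ k ∈ range m, (z ^ k - 1)‖ ≤ (m : ℝ) / 2 := by
    calc ‖∑ k ∈ range m, (z ^ k - 1)‖ ≤ ∑ k ∈ range m, ‖z ^ k - 1‖ := norm_sum_le _ _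
      _ ≤ ∑ k ∈ range m, (k : ℝ) * (1 / m) := by
          refine sum_le_sum fun k _ => le_trans (norm_pow_sub_one_le_mul hz k) ?_
          exact mul_le_mul_of_nonneg_left h (Nat.cast_nonneg k)
      _ = (∑ k ∈ range m, (k : ℝ)) * (1 / m) := by rw [sum_mul]
      _ ≤ (m : ℝ) / 2 := by
          have h2 : (∑ k ∈ range m, (k : ℝ)) * 2 = m * (m - 1) := by
            have := Finset.sum_range_id_mul_two m
            have h3 : (∑ k ∈ range m, k) * 2 = m * (m - 1) := this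
            have h4 : (((∑ k ∈ range m, k) * 2 : ℕ) : ℝ) = ((m * (m - 1) : ℕ) : ℝ) := by
              rw [h3]
            rw [Nat.cast_mul, Nat.cast_sum, Nat.cast_mul, Nat.cast_sub hm] at h4
            push_cast at h4
            exact h4
          rw [mul_one_div, div_le_div_iff₀ hm' (by norm_num), h2]
          nlinarith
  have h3 : (m : ℝ) = ‖(∑ k ∈ range m, z ^ k) - ∑ k ∈ range m, (z ^ k - 1)‖ := by
    rw [← sum_sub_distrib]
    simp
  have h4 := norm_sub_le (∑ k ∈ range m, z ^ k) (∑ k ∈ range m, (z ^ k - 1))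
  linarith

/-- second moment of geometric sums -/
theorem sum_geom_sq {p : ℕ} [Fact p.Prime] {m : ℕ} (hmp : m ≤ p) {ω : ℂ} (hω : ‖ω‖ = 1)
    {s : ZMod p} (hs : s ≠ 0) :
    ∑ a : ZMod p, ‖∑ k ∈ range m, (ω * ZMod.stdAddChar (a * s)) ^ k‖ ^ 2 = p * m := by
  have h0 : ∀ a : ZMod p, ∀ k : ℕ, (ω * ZMod.stdAddChar (a * s) : ℂ) ^ k =
      ω ^ k * ZMod.stdAddChar (a * ((k : ZMod p) * s)) := by
    intro a k
    rw [mul_pow, ← AddChar.map_nsmul_eq_pow, nsmul_eq_mul]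
    congr 2
    ring
  have h1 : ∀ a : ZMod p, ((‖∑ k ∈ range m, (ω * ZMod.stdAddChar (a * s)) ^ k‖ ^ 2 : ℝ) : ℂ) =
      ∑ k ∈ range m, ∑ l ∈ range m, ω ^ k * (starRingEnd ℂ) (ω ^ l) *
        ZMod.stdAddChar (a * (((k : ZMod p) - (l : ZMod p)) * s)) := by
    intro a
    rw [Complex.ofReal_pow, ← Complex.conj_mul', mul_comm, map_sum, sum_mul_sum]
    refine sum_congr rfl fun k _ => sum_congr rfl fun l _ => ?_
    rw [h0, h0, RingHom.map_mul (starRingEnd ℂ), ← AddChar.map_neg_eq_conj]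
    have h2 : a * (((k : ZMod p) - (l : ZMod p)) * s) = a * ((k : ZMod p) * s) + -(a * ((l : ZMod p) * s)) := by
      ring
    rw [h2, AddChar.map_add_eq_mul]
    ring
  have h2 : ((∑ a : ZMod p, ‖∑ k ∈ range m, (ω * ZMod.stdAddChar (a * s)) ^ k‖ ^ 2 : ℝ) : ℂ) =
      ((p * m : ℝ) : ℂ) := by
    rw [Complex.ofReal_sum, sum_congr rfl fun a _ => h1 a, sum_comm]
    have h3 : ∀ k ∈ range m, ∑ a : ZMod p, ∑ l ∈ range m, ω ^ k * (starRingEnd ℂ) (ω ^ l) *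
        ZMod.stdAddChar (a * (((k : ZMod p) - (l : ZMod p)) * s)) = p := by
      intro k hk
      rw [sum_comm, sum_eq_single k]
      · rw [sub_self, zero_mul]
        simp only [mul_zero, AddChar.map_zero_eq_one, mul_one]
        rw [Complex.mul_conj, Complex.normSq_eq_norm_sq, norm_pow, hω, one_pow, one_pow]
        simp [ZMod.card]
      · intro l hl hlk
        rw [← mul_sum, sum_char, mul_zero]
        refine mul_ne_zero ?_ hs
        rw [sub_ne_zero]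
        intro h4
        rw [ZMod.natCast_eq_natCast_iff'] at h4
        rw [Nat.mod_eq_of_lt (by rw [mem_range] at hk; omega),
          Nat.mod_eq_of_lt (by rw [mem_range] at hl; omega)] at h4
        exact hlk h4.symm
      · intro h
        exact absurd hk h
    rw [sum_congr rfl h3, sum_const, card_range, nsmul_eq_mul]
    push_cast
    ring
  exact_mod_cast h2

/-- few values are close to `1` -/
theorem card_close {p : ℕ} [Fact p.Prime] {m : ℕ} (hm : 0 < m) (hmp : m ≤ p) {ω : ℂ}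
    (hω : ‖ω‖ = 1) {s : ZMod p} (hs : s ≠ 0) :
    ((univ.filter fun a : ZMod p => ‖ω * ZMod.stdAddChar (a * s) - 1‖ ≤ 1 / m).card : ℝ) ≤
      4 * p / m := by
  have hm' : (0 : ℝ) < m := by exact_mod_cast hm
  have h1 := sum_geom_sq hmp hω hs
  have h2 : ((univ.filter fun a : ZMod p => ‖ω * ZMod.stdAddChar (a * s) - 1‖ ≤ 1 / m).card : ℝ) *
      ((m : ℝ) / 2) ^ 2 ≤ p * m := by
    rw [← h1, ← nsmul_eq_mul, ← sum_const]
    refine le_trans (sum_le_sum fun a ha => ?_)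
      (sum_le_sum_of_subset_of_nonneg (filter_subset _ _) fun a _ _ => by positivity)
    rw [mem_filter] at ha
    have hz : ‖ω * (ZMod.stdAddChar (a * s) : ℂ)‖ = 1 := by rw [norm_mul, hω, norm_char, one_mul]
    exact pow_le_pow_left₀ (by positivity) (half_le_norm_geom hz hm ha.2) 2
  rw [le_div_iff₀ hm']
  have h3 : (m : ℝ) * (((univ.filter fun a : ZMod p =>
      ‖ω * ZMod.stdAddChar (a * s) - 1‖ ≤ 1 / m).card : ℝ) * m) ≤ m * (4 * p) := by nlinarith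
  exact le_of_mul_le_mul_left h3 hm'

/-- two terms with different phases -/
theorem norm_two_le {β₀ β₁ : ℝ} (h0 : 0 < β₀) (h1 : 0 ≤ β₁) {z : ℂ} (hz : ‖z‖ = 1) :
    ‖(β₀ : ℂ) + β₁ * z‖ ≤ (β₀ + β₁) - β₀ * β₁ * ‖z - 1‖ ^ 2 / (2 * (β₀ + β₁)) := by
  have hs : 0 < β₀ + β₁ := by linarith
  have hz1 : z.re ^ 2 + z.im ^ 2 = 1 := by
    have := Complex.normSq_eq_norm_sq z
    rw [hz, Complex.normSq_apply] at this
    nlinarith
  have h2 : ‖z - 1‖ ^ 2 = 2 - 2 * z.re := by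
    rw [← Complex.normSq_eq_norm_sq, Complex.normSq_apply]
    simp only [Complex.sub_re, Complex.one_re, Complex.sub_im, Complex.one_im]
    nlinarith
  have h3 : ‖(β₀ : ℂ) + β₁ * z‖ ^ 2 = (β₀ + β₁) ^ 2 - β₀ * β₁ * ‖z - 1‖ ^ 2 := by
    rw [h2, ← Complex.normSq_eq_norm_sq, Complex.normSq_apply]
    simp only [Complex.add_re, Complex.ofReal_re, Complex.mul_re, Complex.ofReal_im, Complex.add_im,
      Complex.mul_im]
    linear_combination β₁ ^ 2 * hz1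
  have h4 : ‖z - 1‖ ^ 2 ≤ 4 := by
    rw [h2]
    nlinarith [sq_nonneg z.im]
  obtain ⟨w, hw⟩ : ∃ w : ℝ, w = β₀ * β₁ * ‖z - 1‖ ^ 2 / (2 * (β₀ + β₁)) := ⟨_, rfl⟩
  have hw2 : β₀ * β₁ * ‖z - 1‖ ^ 2 = w * (2 * (β₀ + β₁)) := by
    rw [hw]
    field_simp
  have hpos : 0 ≤ β₀ * β₁ := mul_nonneg h0.le h1
  have hw0 : 0 ≤ w := by rw [hw]; positivity
  have hw3 : w ≤ β₀ + β₁ := by
    rw [hw, div_le_iff₀ (by positivity)]
    nlinarith [sq_nonneg (β₀ - β₁)]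
  rw [← hw]
  refine le_of_pow_le_pow_left₀ (n := 2) (by norm_num) (by linarith) ?_
  rw [h3, hw2]
  nlinarith [sq_nonneg w]

/-- Regime I. -/
theorem regimeI (d G : ℕ) : RegimeI d G := by
  refine ⟨8 * d ^ G, 4 * (d : ℝ) ^ (G + 2) * ((8 * d ^ G : ℕ) : ℝ) ^ 2 , ?_⟩
  intro p _ hp t hG S hS α hα hsum s₀ hs₀ hmax hY A hA
  have ht : (0 : ℝ) < t := by
    have : 0 < t := by omega
    exact_mod_cast this
  have hG' : (G : ℝ) < 2 * t := by exact_mod_cast hG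
  obtain ⟨κ, hκ⟩ : ∃ κ : ℝ, κ = (G : ℝ) / (2 * t) := ⟨_, rfl⟩
  rw [← hκ] at hA
  have hκ0 : 0 ≤ κ := by rw [hκ]; positivity
  have hκ1 : κ < 1 := by
    rw [hκ, div_lt_one (by positivity)]
    exact hG'
  have hd : 0 < d := by
    have : 0 < S.card := card_pos.mpr ⟨s₀, hs₀⟩
    omega
  have hd' : (1 : ℝ) ≤ d := by exact_mod_cast hd
  obtain ⟨m, hm⟩ : ∃ m : ℕ, m = 8 * d ^ G := ⟨_, rfl⟩
  rw [← hm] at hp hY
  have hdG : 0 < d ^ G := Nat.pow_pos hd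
  have hm0 : 0 < m := by omega
  have hm0' : (0 : ℝ) < m := by exact_mod_cast hm0
  have hmR : (m : ℝ) = 8 * (d : ℝ) ^ G := by
    rw [hm]
    push_cast
    ring
  have hdG' : (0 : ℝ) < (d : ℝ) ^ G := by positivity
  obtain ⟨y, hy⟩ : ∃ y : ℝ, y = 1 - α s₀ := ⟨_, rfl⟩
  rw [← hy] at hY
  have hy0 : 0 < y := by
    have h1 : 0 < 4 * (d : ℝ) ^ (G + 2) * (m : ℝ) ^ 2 := by positivity
    by_contra h
    have : t * y ≤ 0 := mul_nonpos_of_nonneg_of_nonpos ht.le (not_lt.mp h)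
    linarith
  have hrest : ∑ s ∈ S.erase s₀, α s = y := by
    have := add_sum_erase S α hs₀
    linarith
  have hle1 : ∀ s ∈ S, α s ≤ 1 := by
    intro s hs
    rw [← hsum]
    exact single_le_sum hα hs
  -- the second largest coefficient
  have hne : (S.erase s₀).Nonempty := by
    rw [nonempty_iff_ne_empty]
    intro h0
    rw [h0, sum_empty] at hrest
    linarith
  obtain ⟨s₁, hs₁, hmax₁⟩ := exists_max_image (S.erase s₀) α hne
  have hs₁S := mem_of_mem_erase hs₁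
  have hs₁₀ : s₁ ≠ s₀ := ne_of_mem_erase hs₁
  have hα₁ : y ≤ d * α s₁ := by
    calc y = ∑ s ∈ S.erase s₀, α s := hrest.symm
      _ ≤ ∑ _s ∈ S.erase s₀, α s₁ := sum_le_sum fun s hs => hmax₁ s hs
      _ = (S.erase s₀).card * α s₁ := by rw [sum_const, nsmul_eq_mul]
      _ ≤ d * α s₁ := by
          refine mul_le_mul_of_nonneg_right ?_ (hα s₁ hs₁S)
          exact_mod_cast le_trans (card_le_card (erase_subset s₀ S)) hS
  have hα₁0 : 0 < α s₁ := by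
    by_contra h
    have : (d : ℝ) * α s₁ ≤ 0 := mul_nonpos_of_nonneg_of_nonpos (by linarith) (not_lt.mp h)
    linarith
  have hα₀0 : 0 < α s₀ := lt_of_lt_of_le hα₁0 (hmax s₁ hs₁S)
  have hge : ∀ s ∈ S, 0 < α s → α s ≤ ‖A s‖ := by
    intro s hs hs0
    rw [hA s hs]
    calc α s = α s ^ (1 : ℝ) := (Real.rpow_one _).symm
      _ ≤ α s ^ (1 - κ) := Real.rpow_le_rpow_of_exponent_ge hs0 (hle1 s hs) (by linarith)
  obtain ⟨β₀, hβ₀⟩ : ∃ b : ℝ, b = ‖A s₀‖ := ⟨_, rfl⟩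
  obtain ⟨β₁, hβ₁⟩ : ∃ b : ℝ, b = ‖A s₁‖ := ⟨_, rfl⟩
  have hβ₀0 : 0 < β₀ := by rw [hβ₀]; exact lt_of_lt_of_le hα₀0 (hge s₀ hs₀ hα₀0)
  have hβ₁0 : 0 < β₁ := by rw [hβ₁]; exact lt_of_lt_of_le hα₁0 (hge s₁ hs₁S hα₁0)
  have hβ₁y : y ≤ d * β₁ := by
    refine le_trans hα₁ (mul_le_mul_of_nonneg_left ?_ (by linarith))
    rw [hβ₁]
    exact hge s₁ hs₁S hα₁0
  have hβ₁₀ : β₁ ≤ β₀ := by
    rw [hβ₀, hβ₁, hA s₀ hs₀, hA s₁ hs₁S]
    exact Real.rpow_le_rpow hα₁0.le (hmax s₁ hs₁S) (by linarith)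
  -- the sum of the absolute values
  obtain ⟨B, hB⟩ : ∃ B : ℝ, B = ∑ s ∈ S, ‖A s‖ := ⟨_, rfl⟩
  have hB0 : 0 ≤ B := by
    rw [hB]
    exact sum_nonneg fun s _ => norm_nonneg _
  have hBd : B ≤ d := by
    calc B = ∑ s ∈ S, ‖A s‖ := hB
      _ ≤ ∑ _s ∈ S, (1 : ℝ) := by
          refine sum_le_sum fun s hs => ?_
          rw [hA s hs]
          exact Real.rpow_le_one (hα s hs) (hle1 s hs) (by linarith)
      _ = S.card := by simp
      _ ≤ d := by exact_mod_cast hS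
  have hBκ : B ^ (2 * t) ≤ (d : ℝ) ^ G := by
    have h1 : B ≤ (d : ℝ) ^ κ := by
      rw [hB, sum_congr rfl hA]
      have h2 := sum_rpow_le S α hα hκ0 hκ1 (D := d) (by exact_mod_cast hS)
      rw [hsum, Real.one_rpow, mul_one] at h2
      exact h2
    calc B ^ (2 * t) ≤ ((d : ℝ) ^ κ) ^ (2 * t) := pow_le_pow_left₀ hB0 h1 _
      _ = (d : ℝ) ^ G := by
          rw [← Real.rpow_natCast, ← Real.rpow_mul (by linarith), ← Real.rpow_natCast]
          congr 1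
          rw [hκ]
          push_cast
          field_simp
  -- the relative phase of the two largest terms
  obtain ⟨ω, hω⟩ : ∃ ω : ℂ, ω = A s₁ * β₀ / (β₁ * A s₀) := ⟨_, rfl⟩
  have hω1 : ‖ω‖ = 1 := by
    rw [hω, norm_div, norm_mul, norm_mul, Complex.norm_real, Complex.norm_real,
      Real.norm_of_nonneg hβ₀0.le, Real.norm_of_nonneg hβ₁0.le, ← hβ₀, ← hβ₁]
    field_simp
  have hA0 : A s₀ ≠ 0 := by
    rw [← norm_pos_iff, ← hβ₀]
    exact hβ₀0
  obtain ⟨z, hz⟩ : ∃ z : ZMod p → ℂ, z = fun a => ω * ZMod.stdAddChar (a * (s₁ - s₀)) := ⟨_, rfl⟩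
  have hz1 : ∀ a, ‖z a‖ = 1 := by
    intro a
    rw [hz]
    simp only
    rw [norm_mul, hω1, norm_char, one_mul]
  have hmain : ∀ a : ZMod p, ‖∑ s ∈ S, A s * ZMod.stdAddChar (a * s)‖ ≤
      B - β₀ * β₁ * ‖z a - 1‖ ^ 2 / (2 * (β₀ + β₁)) := by
    intro a
    have h1 : ∑ s ∈ S, A s * ZMod.stdAddChar (a * s) =
        A s₀ * ZMod.stdAddChar (a * s₀) / β₀ * (β₀ + β₁ * z a) +
          ∑ s ∈ (S.erase s₀).erase s₁, A s * ZMod.stdAddChar (a * s) := by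
      rw [← add_sum_erase S _ hs₀, ← add_sum_erase (S.erase s₀) _ hs₁, ← add_assoc]
      congr 1
      rw [hz]
      simp only
      rw [hω]
      have h2 : a * s₁ = a * s₀ + a * (s₁ - s₀) := by ring
      rw [h2, AddChar.map_add_eq_mul]
      have h3 : (β₀ : ℂ) ≠ 0 := by exact_mod_cast hβ₀0.ne'
      have h4 : (β₁ : ℂ) ≠ 0 := by exact_mod_cast hβ₁0.ne'
      field_simp
    have h2 : B = β₀ + β₁ + ∑ s ∈ (S.erase s₀).erase s₁, ‖A s‖ := by
      rw [hB, ← add_sum_erase S _ hs₀, ← add_sum_erase (S.erase s₀) _ hs₁, hβ₀, hβ₁]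
      ring
    rw [h1]
    refine le_trans (norm_add_le _ _) ?_
    have h3 : ‖A s₀ * ZMod.stdAddChar (a * s₀) / β₀ * (β₀ + β₁ * z a)‖ =
        ‖(β₀ : ℂ) + β₁ * z a‖ := by
      rw [norm_mul, norm_div, norm_mul, norm_char, Complex.norm_real,
        Real.norm_of_nonneg hβ₀0.le, ← hβ₀, mul_one, div_self hβ₀0.ne', one_mul]
    have h4 : ‖∑ s ∈ (S.erase s₀).erase s₁, A s * ZMod.stdAddChar (a * s)‖ ≤
        ∑ s ∈ (S.erase s₀).erase s₁, ‖A s‖ := by
      refine le_trans (norm_sum_le _ _) (le_of_eq ?_)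
      exact sum_congr rfl fun s _ => by rw [norm_mul, norm_char, mul_one]
    rw [h3]
    have h5 := norm_two_le hβ₀0 hβ₁0.le (hz1 a)
    linarith
  -- bad values of `a`
  have hbad : ∀ a : ZMod p, ‖∑ s ∈ S, A s * ZMod.stdAddChar (a * s)‖ ^ (2 * t) ≤ (d : ℝ) ^ G := by
    intro a
    refine le_trans (pow_le_pow_left₀ (norm_nonneg _) (le_trans (hmain a) ?_) _) hBκ
    have : 0 ≤ β₀ * β₁ * ‖z a - 1‖ ^ 2 / (2 * (β₀ + β₁)) := by positivity
    linarith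
  -- good values of `a`
  have hgood : ∀ a : ZMod p, 1 / (m : ℝ) < ‖z a - 1‖ →
      ‖∑ s ∈ S, A s * ZMod.stdAddChar (a * s)‖ ^ (2 * t) ≤ 1 / 2 := by
    intro a ha
    obtain ⟨x, hx⟩ : ∃ x : ℝ, x = y / (4 * d ^ 2 * m ^ 2) := ⟨_, rfl⟩
    have h1 : (1 / (m : ℝ)) ^ 2 ≤ ‖z a - 1‖ ^ 2 := pow_le_pow_left₀ (by positivity) ha.le 2
    have h2 : B * x ≤ β₀ * β₁ * ‖z a - 1‖ ^ 2 / (2 * (β₀ + β₁)) := by
      have h3 : β₀ * β₁ * (1 / (m : ℝ)) ^ 2 / (2 * (β₀ + β₁)) ≤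
          β₀ * β₁ * ‖z a - 1‖ ^ 2 / (2 * (β₀ + β₁)) := by
        refine div_le_div_of_nonneg_right ?_ (by positivity)
        exact mul_le_mul_of_nonneg_left h1 (by positivity)
      refine le_trans ?_ h3
      have h4 : B * y * (β₀ + β₁) ≤ 2 * d ^ 2 * (β₀ * β₁) := by
        calc B * y * (β₀ + β₁) ≤ d * (d * β₁) * (2 * β₀) := by
              refine mul_le_mul (mul_le_mul hBd hβ₁y hy0.le (by linarith)) (by linarith)
                (by linarith) (by positivity)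
          _ = 2 * d ^ 2 * (β₀ * β₁) := by ring
      rw [hx, le_div_iff₀ (by positivity)]
      have h5 : B * (y / (4 * d ^ 2 * m ^ 2)) * (2 * (β₀ + β₁)) =
          (B * y * (β₀ + β₁)) / (2 * d ^ 2 * m ^ 2) := by
        field_simp
        ring
      rw [h5, div_le_iff₀ (by positivity)]
      have h6 : β₀ * β₁ * (1 / (m : ℝ)) ^ 2 * (2 * d ^ 2 * m ^ 2) = 2 * d ^ 2 * (β₀ * β₁) := by
        field_simp
      rw [h6]
      exact h4
    have h3 : ‖∑ s ∈ S, A s * ZMod.stdAddChar (a * s)‖ ≤ B * Real.exp (-x) := by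
      have h4 := Real.one_sub_le_exp_neg x
      have h5 := mul_le_mul_of_nonneg_left h4 hB0
      have := hmain a
      nlinarith
    have h4 : 2 * (d : ℝ) ^ G ≤ 2 * t * x := by
      rw [hx]
      have h5 : 2 * t * (y / (4 * d ^ 2 * m ^ 2)) = (t * y) / (2 * (d : ℝ) ^ 2 * m ^ 2) := by
        field_simp
        ring
      rw [h5, le_div_iff₀ (by positivity)]
      calc 2 * (d : ℝ) ^ G * (2 * d ^ 2 * m ^ 2) = 4 * (d : ℝ) ^ (G + 2) * m ^ 2 := by ring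
        _ ≤ t * y := hY
    have h5 : Real.exp (-(2 * t * x)) ≤ 1 / (2 * (d : ℝ) ^ G) := by
      rw [Real.exp_neg, ← one_div]
      refine one_div_le_one_div_of_le (by positivity) ?_
      have := Real.add_one_le_exp (2 * t * x)
      linarith
    calc ‖∑ s ∈ S, A s * ZMod.stdAddChar (a * s)‖ ^ (2 * t)
        ≤ (B * Real.exp (-x)) ^ (2 * t) := pow_le_pow_left₀ (norm_nonneg _) h3 _
      _ = B ^ (2 * t) * Real.exp (-(2 * t * x)) := by
          rw [mul_pow, ← Real.exp_nat_mul]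
          push_cast
          ring_nf
      _ ≤ (d : ℝ) ^ G * (1 / (2 * (d : ℝ) ^ G)) :=
          mul_le_mul hBκ h5 (Real.exp_pos _).le hdG'.le
      _ = 1 / 2 := by field_simp
  -- the sum
  have hcount := card_close hm0 (by omega : m ≤ p) hω1 (sub_ne_zero.mpr hs₁₀)
  have hz' : ∀ a, z a = ω * ZMod.stdAddChar (a * (s₁ - s₀)) := fun a => by rw [hz]
  simp only [← hz'] at hcount
  rw [← sum_filter_add_sum_filter_not univ (fun a : ZMod p => ‖z a - 1‖ ≤ 1 / m)]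
  have e1 : ∑ a ∈ univ.filter (fun a : ZMod p => ‖z a - 1‖ ≤ 1 / m),
      ‖∑ s ∈ S, A s * ZMod.stdAddChar (a * s)‖ ^ (2 * t) ≤ p / 2 := by
    calc ∑ a ∈ univ.filter (fun a : ZMod p => ‖z a - 1‖ ≤ 1 / m),
          ‖∑ s ∈ S, A s * ZMod.stdAddChar (a * s)‖ ^ (2 * t)
        ≤ ∑ _a ∈ univ.filter (fun a : ZMod p => ‖z a - 1‖ ≤ 1 / m), (d : ℝ) ^ G :=
          sum_le_sum fun a _ => hbad a
      _ = (univ.filter (fun a : ZMod p => ‖z a - 1‖ ≤ 1 / m)).card * (d : ℝ) ^ G := by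
          rw [sum_const, nsmul_eq_mul]
      _ ≤ 4 * p / m * (d : ℝ) ^ G := mul_le_mul_of_nonneg_right hcount hdG'.le
      _ = p / 2 := by
          rw [hmR]
          field_simp
          ring
  have e2 : ∑ a ∈ univ.filter (fun a : ZMod p => ¬ ‖z a - 1‖ ≤ 1 / m),
      ‖∑ s ∈ S, A s * ZMod.stdAddChar (a * s)‖ ^ (2 * t) ≤ p / 2 := by
    calc ∑ a ∈ univ.filter (fun a : ZMod p => ¬ ‖z a - 1‖ ≤ 1 / m),
          ‖∑ s ∈ S, A s * ZMod.stdAddChar (a * s)‖ ^ (2 * t)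
        ≤ ∑ _a ∈ univ.filter (fun a : ZMod p => ¬ ‖z a - 1‖ ≤ 1 / m), (1 / 2 : ℝ) := by
          refine sum_le_sum fun a ha => ?_
          rw [mem_filter] at ha
          exact hgood a (not_le.mp ha.2)
      _ = (univ.filter (fun a : ZMod p => ¬ ‖z a - 1‖ ≤ 1 / m)).card * (1 / 2) := by
          rw [sum_const, nsmul_eq_mul]
      _ ≤ p * (1 / 2) := by
          refine mul_le_mul_of_nonneg_right ?_ (by norm_num)
          have := card_le_univ (univ.filter (fun a : ZMod p => ¬ ‖z a - 1‖ ≤ 1 / m))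
          rw [ZMod.card] at this
          exact_mod_cast this
      _ = p / 2 := by ring
  linarith

/-- MODULE O. One-dimensional inequality. -/
theorem one_dim (d G : ℕ) : ∃ p t : ℕ, ∃ _ : Fact p.Prime, G < 2 * t ∧
    ∀ S : Finset (ZMod p), S.card ≤ d → ∀ A : ZMod p → ℂ,
      ∑ a : ZMod p, ‖∑ s ∈ S, A s * ZMod.stdAddChar (a * s)‖ ^ (2 * t) ≤
        p * (∑ s ∈ S, ‖A s‖ ^ ((2 * t : ℝ) / ((2 * t - G : ℕ) : ℝ))) ^ (2 * t - G) :=
  one_dim_of regimeI d G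

end SetCoverMono
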