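import Mathlib

/-!
# One-dimensional inequality: perturbation estimates (module O of the SCM project)
-/

set_option autoImplicit false

open Finset

namespace SetCoverMono

/-- `|(1 + v)^t - 1 - t v| ≤ (1 + V)^t - 1 - t V` for `|v| ≤ V`. -/
theorem abs_one_add_pow_sub_le {v V : ℝ} (hv : |v| ≤ V) (t : ℕ) :
    |(1 + v) ^ t - 1 - t * v| ≤ (1 + V) ^ t - 1 - t * V := by
  have hV : 0 ≤ V := le_trans (abs_nonneg v) hv
  induction t with
  | zero => simp
  | succ t ih =>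
    have h1 : (1 + v) ^ (t + 1) - 1 - ((t + 1 : ℕ) : ℝ) * v =
        ((1 + v) ^ t - 1 - t * v) * (1 + v) + t * v * v := by
      push_cast
      ring
    have h2 : (1 + V) ^ (t + 1) - 1 - ((t + 1 : ℕ) : ℝ) * V =
        ((1 + V) ^ t - 1 - t * V) * (1 + V) + t * V * V := by
      push_cast
      ring
    rw [h1, h2]
    have h3 : |1 + v| ≤ 1 + V := by
      calc |1 + v| ≤ |(1 : ℝ)| + |v| := abs_add_le _ _
        _ ≤ 1 + V := by rw [abs_one]; linarith
    calc |((1 + v) ^ t - 1 - t * v) * (1 + v) + t * v * v|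
        ≤ |((1 + v) ^ t - 1 - t * v) * (1 + v)| + |t * v * v| := abs_add_le _ _
      _ = |(1 + v) ^ t - 1 - t * v| * |1 + v| + t * |v| * |v| := by
          rw [abs_mul, abs_mul, abs_mul, Nat.abs_cast]
      _ ≤ ((1 + V) ^ t - 1 - t * V) * (1 + V) + t * V * V := by
          have h4 : |(1 + v) ^ t - 1 - t * v| * |1 + v| ≤ ((1 + V) ^ t - 1 - t * V) * (1 + V) :=
            mul_le_mul ih h3 (abs_nonneg _) (le_trans (abs_nonneg _) ih)
          have h5 : (t : ℝ) * |v| * |v| ≤ t * V * V := by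
            have ht : (0 : ℝ) ≤ t := Nat.cast_nonneg t
            have := mul_le_mul hv hv (abs_nonneg v) hV
            nlinarith
          linarith

/-- pointwise perturbation inequality -/
theorem norm_one_add_pow_le {x : ℂ} {X : ℝ} (hx : ‖x‖ ≤ X) (t : ℕ) :
    ‖1 + x‖ ^ (2 * t) ≤ (1 + X) ^ (2 * t) - 2 * t * X + 2 * t * x.re := by
  have hX : 0 ≤ X := le_trans (norm_nonneg x) hx
  have h1 : ‖1 + x‖ ^ 2 = 1 + (2 * x.re + ‖x‖ ^ 2) := by
    rw [← Complex.normSq_eq_norm_sq, ← Complex.normSq_eq_norm_sq, Complex.normSq_apply,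
      Complex.normSq_apply]
    simp only [Complex.add_re, Complex.one_re, Complex.add_im, Complex.one_im]
    ring
  have hre : |x.re| ≤ X := le_trans (Complex.abs_re_le_norm x) hx
  have hsq : ‖x‖ ^ 2 ≤ X ^ 2 := pow_le_pow_left₀ (norm_nonneg x) hx 2
  have h2 : |2 * x.re + ‖x‖ ^ 2| ≤ 2 * X + X ^ 2 := by
    refine le_trans (abs_add_le _ _) ?_
    rw [abs_mul, abs_of_nonneg (by positivity : (0 : ℝ) ≤ ‖x‖ ^ 2)]
    have : |(2 : ℝ)| = 2 := abs_of_pos (by norm_num)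
    rw [this]
    linarith
  have h3 := le_of_abs_le (abs_one_add_pow_sub_le h2 t)
  rw [pow_mul, h1, pow_mul (1 + X) 2 t]
  have h4 : (1 + X) ^ 2 = 1 + (2 * X + X ^ 2) := by ring
  rw [h4]
  have ht : (0 : ℝ) ≤ t := Nat.cast_nonneg t
  nlinarith

/-- average of a perturbation of mean zero -/
theorem sum_one_add_pow_le {ι : Type*} [Fintype ι] (x : ι → ℂ) {X : ℝ} (hx : ∀ a, ‖x a‖ ≤ X)
    (h0 : ∑ a, x a = 0) (t : ℕ) :
    ∑ a, ‖1 + x a‖ ^ (2 * t) ≤ Fintype.card ι * ((1 + X) ^ (2 * t) - 2 * t * X) := by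
  have h1 : ∑ a, (x a).re = 0 := by
    rw [← Complex.re_sum, h0, Complex.zero_re]
  calc ∑ a, ‖1 + x a‖ ^ (2 * t)
      ≤ ∑ a, ((1 + X) ^ (2 * t) - 2 * t * X + 2 * t * (x a).re) :=
        sum_le_sum fun a _ => norm_one_add_pow_le (hx a) t
    _ = Fintype.card ι * ((1 + X) ^ (2 * t) - 2 * t * X) := by
        rw [sum_add_distrib, ← mul_sum, h1, mul_zero, add_zero, sum_const, card_univ, nsmul_eq_mul]

/-- sum of a non-trivial character -/
theorem sum_char {p : ℕ} [Fact p.Prime] {s : ZMod p} (hs : s ≠ 0) :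
    ∑ a : ZMod p, ZMod.stdAddChar (a * s) = (0 : ℂ) := by
  rw [AddChar.sum_mulShift s (ZMod.isPrimitive_stdAddChar p), if_neg hs]
  simp

theorem norm_char {p : ℕ} [Fact p.Prime] (s : ZMod p) : ‖(ZMod.stdAddChar s : ℂ)‖ = 1 :=
  AddChar.norm_apply _ _

/-- one dominating coefficient -/
theorem sum_norm_pow_le {p : ℕ} [Fact p.Prime] {S : Finset (ZMod p)} {A : ZMod p → ℂ} {s₀ : ZMod p}
    (hs₀ : s₀ ∈ S) (hA : A s₀ ≠ 0) (t : ℕ) {X : ℝ}
    (hX : ∑ s ∈ S.erase s₀, ‖A s‖ ≤ X * ‖A s₀‖) :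
    ∑ a : ZMod p, ‖∑ s ∈ S, A s * ZMod.stdAddChar (a * s)‖ ^ (2 * t) ≤
      p * (‖A s₀‖ ^ (2 * t) * ((1 + X) ^ (2 * t) - 2 * t * X)) := by
  have hA' : 0 < ‖A s₀‖ := norm_pos_iff.mpr hA
  set x : ZMod p → ℂ := fun a => ∑ s ∈ S.erase s₀, A s / A s₀ * ZMod.stdAddChar (a * (s - s₀))
    with hx
  have h1 : ∀ a : ZMod p, ∑ s ∈ S, A s * ZMod.stdAddChar (a * s) =
      A s₀ * ZMod.stdAddChar (a * s₀) * (1 + x a) := by
    intro a
    rw [← add_sum_erase S _ hs₀, mul_add, mul_one, hx]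
    congr 1
    rw [mul_sum]
    refine sum_congr rfl fun s _ => ?_
    have h2 : a * s = a * s₀ + a * (s - s₀) := by ring
    rw [h2, AddChar.map_add_eq_mul]
    field_simp
  have h3 : ∀ a, ‖x a‖ ≤ X := by
    intro a
    calc ‖x a‖ ≤ ∑ s ∈ S.erase s₀, ‖A s / A s₀ * ZMod.stdAddChar (a * (s - s₀))‖ :=
          norm_sum_le _ _
      _ = (∑ s ∈ S.erase s₀, ‖A s‖) / ‖A s₀‖ := by
          rw [sum_div]
          refine sum_congr rfl fun s _ => ?_
          rw [norm_mul, norm_char, mul_one, norm_div]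
      _ ≤ X := by
          rw [div_le_iff₀ hA']
          exact hX
  have h4 : ∑ a, x a = 0 := by
    rw [hx, sum_comm]
    refine sum_eq_zero fun s hs => ?_
    rw [← mul_sum, sum_char (sub_ne_zero.mpr (ne_of_mem_erase hs)), mul_zero]
  have h5 := sum_one_add_pow_le x h3 h4 t
  rw [ZMod.card] at h5
  calc ∑ a : ZMod p, ‖∑ s ∈ S, A s * ZMod.stdAddChar (a * s)‖ ^ (2 * t)
      = ‖A s₀‖ ^ (2 * t) * ∑ a : ZMod p, ‖1 + x a‖ ^ (2 * t) := by
        rw [mul_sum]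
        refine sum_congr rfl fun a _ => ?_
        rw [h1 a, norm_mul, norm_mul, norm_char, mul_one, mul_pow]
    _ ≤ ‖A s₀‖ ^ (2 * t) * (p * ((1 + X) ^ (2 * t) - 2 * t * X)) :=
        mul_le_mul_of_nonneg_left h5 (by positivity)
    _ = p * (‖A s₀‖ ^ (2 * t) * ((1 + X) ^ (2 * t) - 2 * t * X)) := by ring

end SetCoverMono
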