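import Pool.Agent.Lib.MP_8fffab_lc_scm_h93.OneDimA

/-!
# One-dimensional inequality: the numerical estimate (module O of the SCM project)
-/

set_option autoImplicit false

open Finset Filter Topology

namespace SetCoverMono

theorem exp_sub_mono {a b : ℝ} (ha : 0 ≤ a) (hab : a ≤ b) :
    Real.exp a - a ≤ Real.exp b - b := by
  have h1 : Real.exp b = Real.exp a * Real.exp (b - a) := by
    rw [← Real.exp_add]
    congr 1
    ring
  have h2 := Real.add_one_le_exp (b - a)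
  have h3 : 1 ≤ Real.exp a := Real.one_le_exp ha
  have h4 : 0 ≤ b - a := by linarith
  rw [h1]
  nlinarith [Real.exp_pos a]

theorem exp_sub_le {z : ℝ} (hz : 0 ≤ z) (hz1 : z ≤ 1) : Real.exp z - z ≤ 1 + z ^ 2 := by
  have h := Real.abs_exp_sub_one_sub_id_le (x := z) (by rw [abs_of_nonneg hz]; exact hz1)
  have h1 := le_of_abs_le h
  linarith

/-- regime II -/
theorem regimeII_aux {u ρ κ Y z : ℝ} (hu : 0 ≤ u) (huY : u ≤ 2 * Y) (hρ : 1 ≤ ρ)
    (hz : 0 ≤ z) (hzu : z ≤ u * ρ) (h : (ρ - 1 + κ) * Real.exp (2 * Y * ρ) ≤ 1) (hκ : 0 ≤ κ) :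
    Real.exp z - z ≤ Real.exp (u * (1 - κ)) := by
  have h1 := exp_sub_mono hz hzu
  have h2 : Real.exp (u * (1 - κ)) = Real.exp (u * ρ) * Real.exp (-(u * (ρ - 1 + κ))) := by
    rw [← Real.exp_add]
    congr 1
    ring
  have h3 := Real.one_sub_le_exp_neg (u * (ρ - 1 + κ))
  have h4 : Real.exp (u * ρ) ≤ Real.exp (2 * Y * ρ) := by
    apply Real.exp_le_exp.mpr
    have : 0 ≤ ρ := by linarith
    nlinarith
  have h5 : (ρ - 1 + κ) * Real.exp (u * ρ) ≤ 1 :=
    le_trans (mul_le_mul_of_nonneg_left h4 (by linarith)) h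
  have h6 : Real.exp (u * ρ) * (1 - u * (ρ - 1 + κ)) ≤
      Real.exp (u * ρ) * Real.exp (-(u * (ρ - 1 + κ))) :=
    mul_le_mul_of_nonneg_left h3 (Real.exp_pos _).le
  rw [h2]
  nlinarith

/-- regime III -/
theorem regimeIII_aux {u γ κ z : ℝ} (hu : 0 ≤ u) (hu2 : u ≤ 1 / 2)
    (hz : 0 ≤ z) (hzu : z ^ 2 ≤ u / 2 * γ ^ 2) (h : γ ^ 2 / 2 + κ ≤ 1) (hκ : 0 ≤ κ) :
    Real.exp z - z ≤ Real.exp (u * (1 - κ)) := by
  have h1 : z ^ 2 ≤ 1 := by nlinarith [sq_nonneg γ]
  have h2 : z ≤ 1 := by nlinarith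
  have h3 := exp_sub_le hz h2
  have h4 := Real.add_one_le_exp (u * (1 - κ))
  nlinarith

theorem tendsto_L (D : ℝ) (hD : 1 ≤ D) (G : ℕ) :
    Tendsto (fun t : ℕ => (4 * D * (t : ℝ)) ^ ((G : ℝ) / (2 * t))) atTop (𝓝 1) := by
  have h1 := tendsto_rpow_div_mul_add (2 * D * G) 1 0 (by norm_num)
  have h2 : Tendsto (fun t : ℕ => 4 * D * (t : ℝ)) atTop atTop :=
    Tendsto.const_mul_atTop (by linarith) tendsto_natCast_atTop_atTop
  have h3 := h1.comp h2
  refine h3.congr' ?_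
  filter_upwards [eventually_gt_atTop 0] with t ht
  have ht' : (0 : ℝ) < t := by exact_mod_cast ht
  simp only [Function.comp]
  congr 1
  field_simp
  ring

/-- the numerical estimate -/
theorem numeric (D : ℝ) (hD : 1 ≤ D) (G : ℕ) (Y : ℝ) (hY : 0 ≤ Y) :
    ∀ᶠ t : ℕ in atTop, ∀ y z : ℝ, 0 ≤ y → t * y ≤ Y → 0 ≤ z →
      z ≤ 2 * t * (D ^ ((G : ℝ) / (2 * t)) * (y / (1 - y)) ^ (1 - (G : ℝ) / (2 * t))) →
      y < 1 ∧ Real.exp z - z ≤ Real.exp ((2 * t - G) * y) := by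
  have hL := tendsto_L D hD G
  have hinv : Tendsto (fun t : ℕ => (t : ℝ)⁻¹) atTop (𝓝 0) := tendsto_inv_atTop_nhds_zero_nat
  have hκ : Tendsto (fun t : ℕ => (G : ℝ) / (2 * t)) atTop (𝓝 0) := by
    have := hinv.const_mul ((G : ℝ) / 2)
    rw [mul_zero] at this
    refine this.congr fun t => ?_
    rw [div_mul_eq_div_div, div_eq_mul_inv ((G : ℝ) / 2)]
  have hYt : Tendsto (fun t : ℕ => Y / (t : ℝ)) atTop (𝓝 0) := by
    have := hinv.const_mul Y
    rw [mul_zero] at this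
    exact this
  have h4t : Tendsto (fun t : ℕ => 1 / (4 * (t : ℝ))) atTop (𝓝 0) := by
    have := hinv.const_mul (1 / 4)
    rw [mul_zero] at this
    refine this.congr fun t => ?_
    rw [one_div, one_div, mul_inv]
  have hρ : Tendsto (fun t : ℕ => (4 * D * (t : ℝ)) ^ ((G : ℝ) / (2 * t)) / (1 - Y / t)) atTop
      (𝓝 1) := by
    have := hL.div (hYt.const_sub 1) (by norm_num)
    rw [sub_zero, div_one] at this
    exact this
  have hγ : Tendsto (fun t : ℕ => (4 * D * (t : ℝ)) ^ ((G : ℝ) / (2 * t)) / (1 - 1 / (4 * t))) atTop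
      (𝓝 1) := by
    have := hL.div (h4t.const_sub 1) (by norm_num)
    rw [sub_zero, div_one] at this
    exact this
  have hII : Tendsto (fun t : ℕ => ((4 * D * (t : ℝ)) ^ ((G : ℝ) / (2 * t)) / (1 - Y / t) - 1 +
      (G : ℝ) / (2 * t)) * Real.exp (2 * Y * ((4 * D * (t : ℝ)) ^ ((G : ℝ) / (2 * t)) /
        (1 - Y / t)))) atTop (𝓝 0) := by
    have h1 := (hρ.sub_const 1).add hκ
    have h2 := (Real.continuous_exp.tendsto _).comp (hρ.const_mul (2 * Y))
    have h3 := h1.mul h2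
    simpa using h3
  have hIII : Tendsto (fun t : ℕ => ((4 * D * (t : ℝ)) ^ ((G : ℝ) / (2 * t)) /
      (1 - 1 / (4 * t))) ^ 2 / 2 + (G : ℝ) / (2 * t)) atTop (𝓝 (1 / 2)) := by
    have h1 := ((hγ.pow 2).div_const 2).add hκ
    simpa using h1
  have e1 := hII.eventually (eventually_le_nhds (show (0 : ℝ) < 1 by norm_num))
  have e2 := hIII.eventually (eventually_le_nhds (show (1 / 2 : ℝ) < 1 by norm_num))
  have e3 := hκ.eventually (eventually_le_nhds (show (0 : ℝ) < 1 / 4 by norm_num))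
  have e4 := hYt.eventually (eventually_le_nhds (show (0 : ℝ) < 1 / 2 by norm_num))
  filter_upwards [e1, e2, e3, e4, eventually_gt_atTop 0] with t e1 e2 e3 e4 ht y z hy0 hyY hz0 hz
  have ht' : (0 : ℝ) < t := by exact_mod_cast ht
  have ht1 : (1 : ℝ) ≤ t := by exact_mod_cast ht
  obtain ⟨κ, hκdef⟩ : ∃ κ : ℝ, κ = (G : ℝ) / (2 * t) := ⟨_, rfl⟩
  obtain ⟨L, hLdef⟩ : ∃ L : ℝ, L = (4 * D * (t : ℝ)) ^ κ := ⟨_, rfl⟩
  rw [← hκdef] at e1 e2 e3 hz
  rw [← hLdef] at e1 e2
  have hκ0 : 0 ≤ κ := by rw [hκdef]; positivity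
  have hL1 : 1 ≤ L := by
    rw [hLdef]
    exact Real.one_le_rpow (by nlinarith) hκ0
  have hLsplit : D ^ κ * (4 * (t : ℝ)) ^ κ = L := by
    rw [hLdef, ← Real.mul_rpow (by linarith) (by positivity)]
    congr 1
    ring
  have hyle : y ≤ Y / t := by
    rw [le_div_iff₀ ht']
    linarith
  have hy1 : y < 1 := by linarith
  refine ⟨hy1, ?_⟩
  have hexp : (2 * (t : ℝ) - G) * y = 2 * t * y * (1 - κ) := by
    rw [hκdef]
    field_simp
  rw [hexp]
  rcases hy0.eq_or_lt with hy0' | hy0'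
  · -- y = 0
    subst hy0'
    rw [zero_div, Real.zero_rpow (by linarith), mul_zero, mul_zero] at hz
    have : z = 0 := le_antisymm hz hz0
    subst this
    simp
  · have hw0 : 0 < y / (1 - y) := div_pos hy0' (by linarith)
    have hwy : y ≤ y / (1 - y) := by
      rw [le_div_iff₀ (by linarith)]
      nlinarith
    have hDκ : 0 ≤ D ^ κ := Real.rpow_nonneg (by linarith) _
    have h4tκ : 0 ≤ (4 * (t : ℝ)) ^ κ := Real.rpow_nonneg (by positivity) _
    rcases le_total (1 / (4 * (t : ℝ))) y with hcase | hcase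
    · -- regime II
      have hYt1 : 0 < 1 - Y / t := by linarith
      have hρ1 : 1 ≤ L / (1 - Y / t) := by
        rw [le_div_iff₀ hYt1]
        have : 0 ≤ Y / t := by positivity
        linarith
      refine regimeII_aux (Y := Y) (ρ := L / (1 - Y / t)) (by positivity) (by linarith) hρ1 hz0 ?_
        e1 hκ0
      refine le_trans hz ?_
      have hw1 : y / (1 - y) ≤ y / (1 - Y / t) :=
        div_le_div_of_nonneg_left hy0'.le hYt1 (by linarith)
      have hw2 : (y / (1 - y)) ^ (1 - κ) ≤ y / (1 - Y / t) * (4 * (t : ℝ)) ^ κ := by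
        rw [Real.rpow_sub hw0, Real.rpow_one, div_eq_mul_inv]
        refine mul_le_mul hw1 ?_ (by positivity) (by positivity)
        rw [← Real.inv_rpow hw0.le]
        refine Real.rpow_le_rpow (by positivity) ?_ hκ0
        rw [inv_le_comm₀ hw0 (by positivity)]
        rw [one_div] at hcase
        linarith
      calc 2 * (t : ℝ) * (D ^ κ * (y / (1 - y)) ^ (1 - κ))
          ≤ 2 * t * (D ^ κ * (y / (1 - Y / t) * (4 * (t : ℝ)) ^ κ)) := by
            refine mul_le_mul_of_nonneg_left ?_ (by positivity)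
            exact mul_le_mul_of_nonneg_left hw2 hDκ
        _ = 2 * t * y * ((D ^ κ * (4 * (t : ℝ)) ^ κ) / (1 - Y / t)) := by ring
        _ = 2 * t * y * (L / (1 - Y / t)) := by rw [hLsplit]
    · -- regime III
      have hu2 : 2 * (t : ℝ) * y ≤ 1 / 2 := by
        rw [le_div_iff₀ (by positivity)] at hcase
        linarith
      have h4t' : 1 / (4 * (t : ℝ)) ≤ 1 / 4 := by
        rw [div_le_div_iff₀ (by positivity) (by norm_num)]
        linarith
      obtain ⟨c, hc⟩ : ∃ c : ℝ, c = 1 / (1 - 1 / (4 * (t : ℝ))) := ⟨_, rfl⟩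
      have hc1 : 1 ≤ c := by
        rw [hc, le_div_iff₀ (by linarith)]
        have : 0 ≤ 1 / (4 * (t : ℝ)) := by positivity
        linarith
      have hLc : L / (1 - 1 / (4 * (t : ℝ))) = L * c := by
        rw [hc]
        ring
      rw [hLc] at e2
      refine regimeIII_aux (γ := L * c) (by positivity) hu2 hz0 ?_ e2 hκ0
      have hw1 : y / (1 - y) ≤ y * c := by
        rw [hc, mul_one_div]
        exact div_le_div_of_nonneg_left hy0'.le (by linarith) (by linarith)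
      have hw3 : y * c ≤ c / (4 * t) := by
        rw [div_eq_mul_one_div c, mul_comm y c]
        exact mul_le_mul_of_nonneg_left hcase (by linarith)
      have hw2 : (y / (1 - y)) ^ (1 - 2 * κ) ≤ c / (4 * t) * (4 * (t : ℝ)) ^ (2 * κ) := by
        calc (y / (1 - y)) ^ (1 - 2 * κ) ≤ (c / (4 * t)) ^ (1 - 2 * κ) :=
              Real.rpow_le_rpow hw0.le (le_trans hw1 hw3) (by linarith)
          _ = c / (4 * t) * ((c / (4 * t)) ^ (2 * κ))⁻¹ := by
              rw [Real.rpow_sub (by positivity), Real.rpow_one, div_eq_mul_inv]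
          _ ≤ c / (4 * t) * (4 * (t : ℝ)) ^ (2 * κ) := by
              refine mul_le_mul_of_nonneg_left ?_ (by positivity)
              rw [← Real.inv_rpow (by positivity)]
              refine Real.rpow_le_rpow (by positivity) ?_ (by linarith)
              rw [inv_div]
              exact div_le_self (by positivity) hc1
      have hz2 : z ^ 2 ≤ (2 * t * (D ^ κ * (y / (1 - y)) ^ (1 - κ))) ^ 2 :=
        pow_le_pow_left₀ hz0 hz 2
      refine le_trans hz2 ?_
      have hsq : ((y / (1 - y)) ^ (1 - κ)) ^ 2 = y / (1 - y) * (y / (1 - y)) ^ (1 - 2 * κ) := by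
        rw [← Real.rpow_natCast, ← Real.rpow_mul hw0.le]
        nth_rewrite 2 [← Real.rpow_one (y / (1 - y))]
        rw [← Real.rpow_add hw0]
        congr 1
        push_cast
        ring
      have hsq2 : ((4 * (t : ℝ)) ^ κ) ^ 2 = (4 * (t : ℝ)) ^ (2 * κ) := by
        rw [← Real.rpow_natCast, ← Real.rpow_mul (by positivity)]
        congr 1
        push_cast
        ring
      have hprod : y / (1 - y) * (y / (1 - y)) ^ (1 - 2 * κ) ≤
          y * c * (c / (4 * t) * (4 * (t : ℝ)) ^ (2 * κ)) :=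
        mul_le_mul hw1 hw2 (Real.rpow_nonneg hw0.le _) (by positivity)
      calc (2 * (t : ℝ) * (D ^ κ * (y / (1 - y)) ^ (1 - κ))) ^ 2
          = 4 * t ^ 2 * (D ^ κ) ^ 2 * ((y / (1 - y)) ^ (1 - κ)) ^ 2 := by ring
        _ = 4 * t ^ 2 * (D ^ κ) ^ 2 * (y / (1 - y) * (y / (1 - y)) ^ (1 - 2 * κ)) := by rw [hsq]
        _ ≤ 4 * t ^ 2 * (D ^ κ) ^ 2 * (y * c * (c / (4 * t) * (4 * (t : ℝ)) ^ (2 * κ))) :=
            mul_le_mul_of_nonneg_left hprod (by positivity)
        _ = 4 * t ^ 2 * (D ^ κ) ^ 2 * (y * c * (c / (4 * t) * ((4 * (t : ℝ)) ^ κ) ^ 2)) := by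
            rw [hsq2]
        _ = 2 * t * y / 2 * ((D ^ κ * (4 * (t : ℝ)) ^ κ) * c) ^ 2 := by
            field_simp
        _ = 2 * t * y / 2 * (L * c) ^ 2 := by rw [hLsplit]

end SetCoverMono
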