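import Pool.Agent.Lib.MP_8fffab_lc_scm_h93.OneDimB

/-!
# One-dimensional inequality: assembly (module O of the SCM project)
-/

set_option autoImplicit false

open Finset Filter Topology

namespace SetCoverMono

/-- Regime I: no coefficient dominates. -/
def RegimeI (d G : ℕ) : Prop :=
  ∃ p₀ : ℕ, ∃ Y₁ : ℝ, ∀ (p : ℕ) [Fact p.Prime], p₀ ≤ p → ∀ t : ℕ, G < 2 * t →
    ∀ S : Finset (ZMod p), S.card ≤ d → ∀ α : ZMod p → ℝ, (∀ s ∈ S, 0 ≤ α s) → ∑ s ∈ S, α s = 1 →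
    ∀ s₀ ∈ S, (∀ s ∈ S, α s ≤ α s₀) → Y₁ ≤ t * (1 - α s₀) →
    ∀ A : ZMod p → ℂ, (∀ s ∈ S, ‖A s‖ = α s ^ (1 - (G : ℝ) / (2 * t))) →
    ∑ a : ZMod p, ‖∑ s ∈ S, A s * ZMod.stdAddChar (a * s)‖ ^ (2 * t) ≤ p

/-- power mean inequality for exponents below `1` -/
theorem sum_rpow_le {ι : Type*} (s : Finset ι) (α : ι → ℝ) (hα : ∀ i ∈ s, 0 ≤ α i) {κ D : ℝ}
    (hκ0 : 0 ≤ κ) (hκ1 : κ < 1) (hD : (s.card : ℝ) ≤ D) :
    ∑ i ∈ s, α i ^ (1 - κ) ≤ D ^ κ * (∑ i ∈ s, α i) ^ (1 - κ) := by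
  have hr : 0 < 1 - κ := by linarith
  have hq : 1 ≤ 1 / (1 - κ) := by
    rw [le_div_iff₀ hr]
    linarith
  have h1 := Real.rpow_sum_le_const_mul_sum_rpow s (fun i => α i ^ (1 - κ)) hq
  have h2 : ∀ i ∈ s, |α i ^ (1 - κ)| = α i ^ (1 - κ) := fun i hi =>
    abs_of_nonneg (Real.rpow_nonneg (hα i hi) _)
  have h3 : ∀ i ∈ s, |α i ^ (1 - κ)| ^ (1 / (1 - κ)) = α i := by
    intro i hi
    rw [h2 i hi, ← Real.rpow_mul (hα i hi), mul_one_div_cancel hr.ne', Real.rpow_one]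
  rw [sum_congr rfl h2, sum_congr rfl h3] at h1
  have hsum : 0 ≤ ∑ i ∈ s, α i ^ (1 - κ) := sum_nonneg fun i hi => Real.rpow_nonneg (hα i hi) _
  have hsum2 : 0 ≤ ∑ i ∈ s, α i := sum_nonneg hα
  have hcard : (0 : ℝ) ≤ s.card := Nat.cast_nonneg _
  have h4 : ((∑ i ∈ s, α i ^ (1 - κ)) ^ (1 / (1 - κ))) ^ (1 - κ) ≤
      ((s.card : ℝ) ^ (1 / (1 - κ) - 1) * ∑ i ∈ s, α i) ^ (1 - κ) :=
    Real.rpow_le_rpow (Real.rpow_nonneg hsum _) h1 hr.le
  rw [← Real.rpow_mul hsum, one_div_mul_cancel hr.ne', Real.rpow_one,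
    Real.mul_rpow (Real.rpow_nonneg hcard _) hsum2, ← Real.rpow_mul hcard] at h4
  have h5 : (1 / (1 - κ) - 1) * (1 - κ) = κ := by
    field_simp
    ring
  rw [h5] at h4
  refine le_trans h4 (mul_le_mul_of_nonneg_right ?_ (Real.rpow_nonneg hsum2 _))
  exact Real.rpow_le_rpow hcard hD hκ0

/-- the normalised inequality, dominating coefficient -/
theorem dominated {p t G : ℕ} [Fact p.Prime] (hG : G < 2 * t) {D : ℝ} (_hD : 1 ≤ D)
    {S : Finset (ZMod p)} (hS : (S.card : ℝ) ≤ D) {α : ZMod p → ℝ} (hα : ∀ s ∈ S, 0 ≤ α s)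
    (hsum : ∑ s ∈ S, α s = 1) {s₀ : ZMod p} (hs₀ : s₀ ∈ S) (hα₀ : 0 < α s₀)
    {A : ZMod p → ℂ} (hA : ∀ s ∈ S, ‖A s‖ = α s ^ (1 - (G : ℝ) / (2 * t)))
    (hnum : ∀ z : ℝ, 0 ≤ z → z ≤ 2 * t * (D ^ ((G : ℝ) / (2 * t)) *
      ((1 - α s₀) / (1 - (1 - α s₀))) ^ (1 - (G : ℝ) / (2 * t))) →
      Real.exp z - z ≤ Real.exp ((2 * t - G) * (1 - α s₀))) :
    ∑ a : ZMod p, ‖∑ s ∈ S, A s * ZMod.stdAddChar (a * s)‖ ^ (2 * t) ≤ p := by
  have ht : (0 : ℝ) < t := by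
    have : 0 < t := by omega
    exact_mod_cast this
  have hG' : (G : ℝ) < 2 * t := by exact_mod_cast hG
  obtain ⟨κ, hκ⟩ : ∃ κ : ℝ, κ = (G : ℝ) / (2 * t) := ⟨_, rfl⟩
  rw [← hκ] at hA hnum
  have hκ0 : 0 ≤ κ := by rw [hκ]; positivity
  have hκ1 : κ < 1 := by
    rw [hκ, div_lt_one (by positivity)]
    exact hG'
  obtain ⟨y, hy⟩ : ∃ y : ℝ, y = 1 - α s₀ := ⟨_, rfl⟩
  have hα1 : α s₀ = 1 - y := by linarith
  rw [hα1, show 1 - (1 - y) = y by ring] at hnum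
  have hrest : ∑ s ∈ S.erase s₀, α s = y := by
    have := add_sum_erase S α hs₀
    linarith
  have hy0 : 0 ≤ y := by
    rw [← hrest]
    exact sum_nonneg fun s hs => hα s (mem_of_mem_erase hs)
  have hA0 : ‖A s₀‖ = (1 - y) ^ (1 - κ) := by rw [hA s₀ hs₀, hα1]
  have hy1 : 0 < 1 - y := by linarith
  have hA0' : 0 < ‖A s₀‖ := by
    rw [hA0]
    exact Real.rpow_pos_of_pos hy1 _
  obtain ⟨X, hX⟩ : ∃ X : ℝ, X = D ^ κ * (y / (1 - y)) ^ (1 - κ) := ⟨_, rfl⟩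
  have hX0 : 0 ≤ X := by
    rw [hX]
    have : 0 ≤ y / (1 - y) := div_nonneg hy0 hy1.le
    exact mul_nonneg (Real.rpow_nonneg (by linarith) _) (Real.rpow_nonneg this _)
  have hH : ∑ s ∈ S.erase s₀, ‖A s‖ ≤ X * ‖A s₀‖ := by
    calc ∑ s ∈ S.erase s₀, ‖A s‖ = ∑ s ∈ S.erase s₀, α s ^ (1 - κ) :=
          sum_congr rfl fun s hs => hA s (mem_of_mem_erase hs)
      _ ≤ D ^ κ * (∑ s ∈ S.erase s₀, α s) ^ (1 - κ) := by
          refine sum_rpow_le _ α (fun s hs => hα s (mem_of_mem_erase hs)) hκ0 hκ1 ?_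
          refine le_trans ?_ hS
          exact_mod_cast card_le_card (erase_subset s₀ S)
      _ = X * ‖A s₀‖ := by
          rw [hrest, hX, hA0, Real.div_rpow hy0 hy1.le]
          have : (1 - y) ^ (1 - κ) ≠ 0 := (Real.rpow_pos_of_pos hy1 _).ne'
          field_simp
  have h1 := sum_norm_pow_le hs₀ (norm_pos_iff.mp hA0') t hH
  refine le_trans h1 ?_
  have hz := hnum (2 * t * X) (by positivity) (by rw [hX])
  have h2 : (1 + X) ^ (2 * t) ≤ Real.exp (2 * t * X) := by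
    have h3 : 1 + X ≤ Real.exp X := by linarith [Real.add_one_le_exp X]
    calc (1 + X) ^ (2 * t) ≤ Real.exp X ^ (2 * t) := pow_le_pow_left₀ (by linarith) h3 _
      _ = Real.exp (2 * t * X) := by
          rw [← Real.exp_nat_mul]
          push_cast
          ring_nf
  have h3 : ‖A s₀‖ ^ (2 * t) ≤ Real.exp (-((2 * t - G) * y)) := by
    have h4 : ‖A s₀‖ ^ (2 * t) = (1 - y) ^ ((2 * t - G : ℝ)) := by
      rw [hA0, ← Real.rpow_natCast, ← Real.rpow_mul hy1.le]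
      congr 1
      rw [hκ]
      push_cast
      field_simp
    rw [h4]
    calc (1 - y) ^ ((2 * t - G : ℝ)) ≤ Real.exp (-y) ^ ((2 * t - G : ℝ)) :=
          Real.rpow_le_rpow hy1.le (Real.one_sub_le_exp_neg y) (by linarith)
      _ = Real.exp (-((2 * t - G) * y)) := by
          rw [← Real.exp_mul]
          ring_nf
  have h5 : 0 ≤ (1 + X) ^ (2 * t) - 2 * t * X := by
    have := one_add_mul_le_pow (show (-2 : ℝ) ≤ X by linarith) (2 * t)
    push_cast at this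
    linarith
  have h6 : ‖A s₀‖ ^ (2 * t) * ((1 + X) ^ (2 * t) - 2 * t * X) ≤ 1 := by
    calc ‖A s₀‖ ^ (2 * t) * ((1 + X) ^ (2 * t) - 2 * t * X)
        ≤ Real.exp (-((2 * t - G) * y)) * Real.exp ((2 * t - G) * y) := by
          refine mul_le_mul h3 ?_ h5 (Real.exp_pos _).le
          linarith
      _ = 1 := by
          rw [← Real.exp_add]
          simp
  have hp : (0 : ℝ) ≤ p := Nat.cast_nonneg p
  calc (p : ℝ) * (‖A s₀‖ ^ (2 * t) * ((1 + X) ^ (2 * t) - 2 * t * X)) ≤ p * 1 :=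
        mul_le_mul_of_nonneg_left h6 hp
    _ = p := mul_one _

/-- MODULE O from regime I. -/
theorem one_dim_of (hI : ∀ d G, RegimeI d G) (d G : ℕ) :
    ∃ p t : ℕ, ∃ _ : Fact p.Prime, G < 2 * t ∧
    ∀ S : Finset (ZMod p), S.card ≤ d → ∀ A : ZMod p → ℂ,
      ∑ a : ZMod p, ‖∑ s ∈ S, A s * ZMod.stdAddChar (a * s)‖ ^ (2 * t) ≤
        p * (∑ s ∈ S, ‖A s‖ ^ ((2 * t : ℝ) / ((2 * t - G : ℕ) : ℝ))) ^ (2 * t - G) := by
  obtain ⟨p₀, Y₁, h⟩ := hI (d + 1) G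
  have hD : (1 : ℝ) ≤ ((d + 1 : ℕ) : ℝ) := by
    push_cast
    linarith [(Nat.cast_nonneg d : (0 : ℝ) ≤ d)]
  have hY : (0 : ℝ) ≤ max Y₁ 0 := le_max_right _ _
  obtain ⟨t, ht1, ht2⟩ := ((numeric ((d + 1 : ℕ) : ℝ) hD G (max Y₁ 0) hY).and
    (eventually_gt_atTop G)).exists
  obtain ⟨p, hp1, hp2⟩ := Nat.exists_infinite_primes p₀
  have : Fact p.Prime := ⟨hp2⟩
  have hG : G < 2 * t := by omega
  refine ⟨p, t, ⟨hp2⟩, hG, ?_⟩
  intro S hS A
  have ht : (0 : ℝ) < t := by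
    have : 0 < t := by omega
    exact_mod_cast this
  have hG' : (G : ℝ) < 2 * t := by exact_mod_cast hG
  have hT : ((2 * t - G : ℕ) : ℝ) = 2 * t - G := by
    rw [Nat.cast_sub hG.le]
    push_cast
    ring
  have hT0 : (0 : ℝ) < 2 * t - G := by linarith
  obtain ⟨q, hq⟩ : ∃ q : ℝ, q = (2 * t : ℝ) / (2 * t - G) := ⟨_, rfl⟩
  have hq0 : 0 < q := by rw [hq]; positivity
  rw [hT, ← hq]
  obtain ⟨N, hN⟩ : ∃ N : ℝ, N = ∑ s ∈ S, ‖A s‖ ^ q := ⟨_, rfl⟩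
  rw [← hN]
  have hN0 : 0 ≤ N := by
    rw [hN]
    exact sum_nonneg fun s _ => Real.rpow_nonneg (norm_nonneg _) _
  rcases hN0.eq_or_lt with hN0' | hN0'
  · -- everything vanishes
    have hz : ∀ s ∈ S, A s = 0 := by
      intro s hs
      have h1 : ‖A s‖ ^ q = 0 := by
        refine le_antisymm ?_ (Real.rpow_nonneg (norm_nonneg _) _)
        rw [hN0', hN]
        exact single_le_sum (f := fun s => ‖A s‖ ^ q)
          (fun s _ => Real.rpow_nonneg (norm_nonneg _) _) hs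
      have h2 := (Real.rpow_eq_zero (norm_nonneg _) hq0.ne').mp h1
      exact norm_eq_zero.mp h2
    have h1 : ∀ a : ZMod p, ‖∑ s ∈ S, A s * ZMod.stdAddChar (a * s)‖ ^ (2 * t) = 0 := by
      intro a
      rw [sum_eq_zero fun s hs => by rw [hz s hs, zero_mul], norm_zero, zero_pow (by omega)]
    rw [sum_congr rfl fun a _ => h1 a, sum_const_zero]
    positivity
  · -- normalisation
    obtain ⟨c, hc⟩ : ∃ c : ℝ, c = N ^ (1 / q) := ⟨_, rfl⟩
    have hc0 : 0 < c := by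
      rw [hc]
      exact Real.rpow_pos_of_pos hN0' _
    have hcq : c ^ q = N := by
      rw [hc, ← Real.rpow_mul hN0'.le, one_div_mul_cancel hq0.ne', Real.rpow_one]
    have hc2t : c ^ (2 * t) = N ^ (2 * t - G) := by
      rw [hc, ← Real.rpow_natCast, ← Real.rpow_mul hN0'.le, ← Real.rpow_natCast N]
      congr 1
      rw [hT, hq]
      push_cast
      field_simp
    obtain ⟨B, hB⟩ : ∃ B : ZMod p → ℂ, B = fun s => A s / c := ⟨_, rfl⟩
    have hAB : ∀ s, A s = c * B s := by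
      intro s
      rw [hB]
      have : (c : ℂ) ≠ 0 := by exact_mod_cast hc0.ne'
      field_simp
    have hBn : ∀ s, ‖B s‖ = ‖A s‖ / c := by
      intro s
      rw [hB, norm_div, Complex.norm_real, Real.norm_of_nonneg hc0.le]
    have hscale : ∑ a : ZMod p, ‖∑ s ∈ S, A s * ZMod.stdAddChar (a * s)‖ ^ (2 * t) =
        c ^ (2 * t) * ∑ a : ZMod p, ‖∑ s ∈ S, B s * ZMod.stdAddChar (a * s)‖ ^ (2 * t) := by
      rw [mul_sum]
      refine sum_congr rfl fun a _ => ?_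
      have h1 : ∑ s ∈ S, A s * ZMod.stdAddChar (a * s) =
          c * ∑ s ∈ S, B s * ZMod.stdAddChar (a * s) := by
        rw [mul_sum]
        exact sum_congr rfl fun s _ => by rw [hAB s, mul_assoc]
      rw [h1, norm_mul, Complex.norm_real, Real.norm_of_nonneg hc0.le, mul_pow]
    rw [hscale, hc2t, mul_comm]
    refine mul_le_mul_of_nonneg_right ?_ (by positivity)
    obtain ⟨α, hαdef⟩ : ∃ α : ZMod p → ℝ, α = fun s => ‖B s‖ ^ q := ⟨_, rfl⟩
    have hα : ∀ s ∈ S, 0 ≤ α s := by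
      intro s _
      rw [hαdef]
      exact Real.rpow_nonneg (norm_nonneg _) _
    have hsum : ∑ s ∈ S, α s = 1 := by
      have h1 : ∀ s ∈ S, α s = ‖A s‖ ^ q / N := by
        intro s _
        rw [hαdef]
        simp only
        rw [hBn s, Real.div_rpow (norm_nonneg _) hc0.le, hcq]
      rw [sum_congr rfl h1, ← sum_div, ← hN, div_self hN0'.ne']
    have hBα : ∀ s ∈ S, ‖B s‖ = α s ^ (1 - (G : ℝ) / (2 * t)) := by
      intro s _
      rw [hαdef]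
      simp only
      rw [← Real.rpow_mul (norm_nonneg _)]
      have h1 : q * (1 - (G : ℝ) / (2 * t)) = 1 := by
        rw [hq]
        field_simp
      rw [h1, Real.rpow_one]
    have hne : S.Nonempty := by
      rw [nonempty_iff_ne_empty]
      intro h0
      rw [h0, sum_empty] at hsum
      norm_num at hsum
    obtain ⟨s₀, hs₀, hmax⟩ := exists_max_image S α hne
    have hα₀ : 0 < α s₀ := by
      by_contra h0
      have h1 : ∀ s ∈ S, α s = 0 := fun s hs =>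
        le_antisymm (le_trans (hmax s hs) (not_lt.mp h0)) (hα s hs)
      rw [sum_eq_zero h1] at hsum
      norm_num at hsum
    have hα₁ : α s₀ ≤ 1 := by
      rw [← hsum]
      exact single_le_sum hα hs₀
    rcases le_total Y₁ (t * (1 - α s₀)) with hcase | hcase
    · exact h p hp1 t hG S (by omega) α hα hsum s₀ hs₀ hmax hcase B hBα
    · have hSD : (S.card : ℝ) ≤ ((d + 1 : ℕ) : ℝ) := by
        exact_mod_cast (by omega : S.card ≤ d + 1)
      refine dominated hG hD hSD hα hsum hs₀ hα₀ hBα ?_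
      intro z hz0 hz
      exact (ht1 (1 - α s₀) z (by linarith) (le_trans hcase (le_max_left _ _)) hz0 hz).2

end SetCoverMono
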